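import Pool.Agent.W893.EV.Stm

/-!
# Imprimitive transitive groups have many orbits on `k`-sets
-/

set_option autoImplicit false

namespace Pool.Agent.W67.EVIMP

open Finset Pool.Agent.W893.EV
open scoped Classical

section
variable {n : ℕ} {G : Subgroup (Equiv.Perm (Fin n))} {r : Setoid (Fin n)}

theorem r_iff (hr : ∀ σ ∈ G, ∀ i j, r i j → r (σ i) (σ j)) {σ : Equiv.Perm (Fin n)}
    (hσ : σ ∈ G) (i j : Fin n) : r (σ i) (σ j) ↔ r i j := by
  refine ⟨fun h => ?_, hr σ hσ i j⟩
  have h2 := hr σ⁻¹ (G.inv_mem hσ) _ _ h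
  simpa using h2

/-- number of the elements of `A` in the class of `x` -/
noncomputable def cl (r : Setoid (Fin n)) (A : Finset (Fin n)) (x : Fin n) : ℕ :=
  #(A.filter (fun y => r x y))

theorem cl_map (hr : ∀ σ ∈ G, ∀ i j, r i j → r (σ i) (σ j)) {σ : Equiv.Perm (Fin n)}
    (hσ : σ ∈ G) (A : Finset (Fin n)) (x : Fin n) :
    cl r (A.map σ.toEmbedding) (σ x) = cl r A x := by
  unfold cl
  rw [Finset.filter_map, Finset.card_map]
  congr 1
  refine Finset.filter_congr fun y _ => ?_
  exact r_iff hr hσ x y

theorem sup_map (hr : ∀ σ ∈ G, ∀ i j, r i j → r (σ i) (σ j)) {σ : Equiv.Perm (Fin n)}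
    (hσ : σ ∈ G) (A : Finset (Fin n)) :
    univ.sup (cl r (A.map σ.toEmbedding)) = univ.sup (cl r A) := by
  apply le_antisymm
  · refine Finset.sup_le fun x _ => ?_
    have h : x = σ (σ⁻¹ x) := by simp
    rw [h, cl_map hr hσ]
    exact Finset.le_sup (Finset.mem_univ _)
  · refine Finset.sup_le fun x _ => ?_
    rw [← cl_map hr hσ A x]
    exact Finset.le_sup (Finset.mem_univ _)

theorem mk_map (hr : ∀ σ ∈ G, ∀ i j, r i j → r (σ i) (σ j)) {σ : Equiv.Perm (Fin n)}
    (hσ : σ ∈ G) (A : Finset (Fin n)) :
    #((A.map σ.toEmbedding).image (Quotient.mk r)) = #(A.image (Quotient.mk r)) := by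
  let φ : Quotient r → Quotient r := Quotient.map σ (fun i j h => hr σ hσ i j h)
  have hφ : Function.Injective φ := by
    intro p q
    induction p using Quotient.inductionOn with
    | _ x =>
      induction q using Quotient.inductionOn with
      | _ y =>
        intro h
        apply Quotient.sound
        have h2 : (Quotient.mk r (σ x)) = Quotient.mk r (σ y) := h
        exact (r_iff hr hσ x y).mp (Quotient.exact h2)
  have h : (A.map σ.toEmbedding).image (Quotient.mk r) = (A.image (Quotient.mk r)).image φ := by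
    rw [Finset.map_eq_image, Finset.image_image, Finset.image_image]
    rfl
  rw [h, Finset.card_image_of_injective _ hφ]

theorem le_orbits (I : Finset (Fin n) → ℕ)
    (hI : ∀ σ ∈ G, ∀ A : Finset (Fin n), I (A.map σ.toEmbedding) = I A) (k : ℕ) (J : Finset ℕ)
    (h : ∀ j ∈ J, ∃ A : Finset (Fin n), #A = k ∧ I A = j) : #J ≤ orbits G k := by
  choose! A hA using h
  unfold orbits
  rw [← Set.ncard_coe_finset J]
  refine Set.ncard_le_ncard_of_injOn (fun j => orb G (A j)) ?_ ?_ (Set.toFinite _)
  · intro j hj
    exact ⟨A j, (hA j hj).1, rfl⟩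
  · intro j hj j' hj' heq
    have h1 : A j ∈ orb G (A j) := ⟨1, G.one_mem, by
      have e : (1 : Equiv.Perm (Fin n)).toEmbedding = Function.Embedding.refl _ := rfl
      rw [e, Finset.map_refl]⟩
    have heq' : orb G (A j) = orb G (A j') := heq
    rw [heq'] at h1
    obtain ⟨σ, hσ, h2⟩ := h1
    rw [← (hA j hj).2, h2, hI σ hσ, (hA j' hj').2]

theorem half_le (a : ℕ) : a ≤ 2 * #(Finset.Icc ((a + 1) / 2) a) := by
  rw [Nat.card_Icc]
  omega

theorem fin_le {a M N : ℕ} (h1 : a ≤ 2 * M) (h2 : N ≤ a * a) : N ≤ 4 * M ^ 2 := by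
  nlinarith

/-- equal sizes of the classes -/
theorem cl_eq (hr : ∀ σ ∈ G, ∀ i j, r i j → r (σ i) (σ j)) (ht : Trans G) (x y : Fin n) :
    cl r univ x = cl r univ y := by
  obtain ⟨σ, hσ, rfl⟩ := ht x y
  have h := cl_map hr hσ univ x
  have e : (univ : Finset (Fin n)).map σ.toEmbedding = univ := Finset.map_univ_equiv σ
  rw [e] at h
  exact h.symm

theorem caseA (hr : ∀ σ ∈ G, ∀ i j, r i j → r (σ i) (σ j)) (ht : Trans G) (c d : Fin n)
    (hcd : ¬ r c d) : cl r univ c ≤ 2 * orbits G (cl r univ c) := by
  set a := cl r univ c with ha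
  refine (half_le a).trans (Nat.mul_le_mul_left 2 ?_)
  refine le_orbits (fun A => univ.sup (cl r A)) (fun σ hσ A => sup_map hr hσ A) a _ ?_
  intro j hj
  rw [Finset.mem_Icc] at hj
  obtain ⟨hj1, hj2⟩ := hj
  have hda : #((univ : Finset (Fin n)).filter (fun y => r d y)) = a := cl_eq hr ht d c
  have hca : #((univ : Finset (Fin n)).filter (fun y => r c y)) = a := rfl
  obtain ⟨C, hC, hCj⟩ := Finset.exists_subset_card_eq (s := (univ : Finset (Fin n)).filter
    (fun y => r c y)) (n := j) (by rw [hca]; exact hj2)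
  obtain ⟨D, hD, hDj⟩ := Finset.exists_subset_card_eq (s := (univ : Finset (Fin n)).filter
    (fun y => r d y)) (n := a - j) (by rw [hda]; omega)
  have hC' : ∀ y ∈ C, r c y := fun y hy => (Finset.mem_filter.mp (hC hy)).2
  have hD' : ∀ y ∈ D, r d y := fun y hy => (Finset.mem_filter.mp (hD hy)).2
  have hdis : Disjoint C D := by
    rw [Finset.disjoint_left]
    intro y h1 h2
    exact hcd (r.trans' (hC' y h1) (r.symm' (hD' y h2)))
  refine ⟨C ∪ D, ?_, ?_⟩
  · rw [Finset.card_union_of_disjoint hdis, hCj, hDj]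
    omega
  · apply le_antisymm
    · refine Finset.sup_le fun x _ => ?_
      unfold cl
      by_cases hx : r c x
      · have h1 : (C ∪ D).filter (fun y => r x y) ⊆ C := by
          intro y hy
          rw [Finset.mem_filter, Finset.mem_union] at hy
          rcases hy.1 with h | h
          · exact h
          · exact absurd (r.trans' hx (r.trans' hy.2 (r.symm' (hD' y h)))) hcd
        rw [← hCj]
        exact Finset.card_le_card h1
      · have h1 : (C ∪ D).filter (fun y => r x y) ⊆ D := by
          intro y hy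
          rw [Finset.mem_filter, Finset.mem_union] at hy
          rcases hy.1 with h | h
          · exact absurd (r.trans' (hC' y h) (r.symm' hy.2)) hx
          · exact h
        have h2 := Finset.card_le_card h1
        rw [hDj] at h2
        omega
    · have h1 : j ≤ cl r (C ∪ D) c := by
        unfold cl
        rw [← hCj]
        refine Finset.card_le_card fun y hy => ?_
        rw [Finset.mem_filter, Finset.mem_union]
        exact ⟨Or.inl hy, hC' y hy⟩
      exact h1.trans (Finset.le_sup (f := cl r (C ∪ D)) (Finset.mem_univ c))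

theorem caseB (hr : ∀ σ ∈ G, ∀ i j, r i j → r (σ i) (σ j))
    (s s' : Quotient r → Fin n) (hs : ∀ q, Quotient.mk r (s q) = q)
    (hs' : ∀ q, Quotient.mk r (s' q) = q) (hne : ∀ q, s q ≠ s' q) :
    Fintype.card (Quotient r) ≤ 2 * orbits G (Fintype.card (Quotient r)) := by
  set b := Fintype.card (Quotient r) with hb
  refine (half_le b).trans (Nat.mul_le_mul_left 2 ?_)
  refine le_orbits (fun A => #(A.image (Quotient.mk r))) (fun σ hσ A => mk_map hr hσ A) b _ ?_
  intro m hm
  rw [Finset.mem_Icc] at hm
  obtain ⟨hm1, hm2⟩ := hm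
  obtain ⟨Q, -, hQ⟩ := Finset.exists_subset_card_eq (s := (univ : Finset (Quotient r)))
    (n := m) (by rw [Finset.card_univ]; exact hm2)
  obtain ⟨Q', hQ'Q, hQ'⟩ := Finset.exists_subset_card_eq (s := Q) (n := b - m) (by
    rw [hQ]; omega)
  have hsi : Function.Injective s := fun p q h => by rw [← hs p, ← hs q, h]
  have hsi' : Function.Injective s' := fun p q h => by rw [← hs' p, ← hs' q, h]
  have hdis : Disjoint (Q.image s) (Q'.image s') := by
    rw [Finset.disjoint_left]
    intro y h1 h2
    rw [Finset.mem_image] at h1 h2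
    obtain ⟨p, -, rfl⟩ := h1
    obtain ⟨q, -, h3⟩ := h2
    have h4 : q = p := by rw [← hs' q, h3, hs p]
    rw [h4] at h3
    exact hne p h3.symm
  refine ⟨Q.image s ∪ Q'.image s', ?_, ?_⟩
  · rw [Finset.card_union_of_disjoint hdis, Finset.card_image_of_injective _ hsi,
      Finset.card_image_of_injective _ hsi', hQ, hQ']
    omega
  · have h1 : (Q.image s ∪ Q'.image s').image (Quotient.mk r) = Q := by
      ext q
      rw [Finset.mem_image]
      constructor
      · rintro ⟨y, hy, rfl⟩
        rw [Finset.mem_union, Finset.mem_image, Finset.mem_image] at hy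
        rcases hy with ⟨p, hp, rfl⟩ | ⟨p, hp, rfl⟩
        · rw [hs]; exact hp
        · rw [hs']; exact hQ'Q hp
      · intro hq
        exact ⟨s q, Finset.mem_union_left _ (Finset.mem_image_of_mem s hq), hs q⟩
    change #((Q.image s ∪ Q'.image s').image (Quotient.mk r)) = m
    rw [h1, hQ]

theorem card_eq (hr : ∀ σ ∈ G, ∀ i j, r i j → r (σ i) (σ j)) (ht : Trans G) (c : Fin n) :
    n = Fintype.card (Quotient r) * cl r univ c := by
  have h1 := Finset.card_eq_sum_card_fiberwise (s := (univ : Finset (Fin n)))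
    (t := (univ : Finset (Quotient r))) (f := Quotient.mk r) (fun x _ => Finset.mem_univ _)
  rw [Finset.card_univ, Fintype.card_fin] at h1
  have h2 : ∀ q : Quotient r,
      #((univ : Finset (Fin n)).filter (fun x => Quotient.mk r x = q)) = cl r univ c := by
    intro q
    induction q using Quotient.inductionOn with
    | _ x =>
      rw [cl_eq hr ht c x]
      unfold cl
      congr 1
      refine Finset.filter_congr fun y _ => ?_
      constructor
      · intro h
        exact r.symm' (Quotient.exact h)
      · intro h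
        exact Quotient.sound (r.symm' h)
  rw [Finset.sum_congr rfl (fun q _ => h2 q), Finset.sum_const, Finset.card_univ,
    smul_eq_mul] at h1
  exact h1

end

theorem IMP_proof : Pool.Agent.W893.EV.IMP := by
  intro n G ht hi
  obtain ⟨r, hr, ⟨i, j, hij, hrij⟩, c, d, hcd⟩ := hi
  have hn := card_eq hr ht c
  rcases le_total (Fintype.card (Quotient r)) (cl r univ c) with h | h
  · refine ⟨cl r univ c, fin_le (caseA hr ht c d hcd) ?_⟩
    calc n = Fintype.card (Quotient r) * cl r univ c := hn
      _ ≤ cl r univ c * cl r univ c := Nat.mul_le_mul_right _ h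
  · have hex : ∀ q : Quotient r, ∃ y, Quotient.mk r y = q ∧ y ≠ q.out := by
      intro q
      have h1 : 1 < cl r univ q.out := by
        rw [cl_eq hr ht q.out i]
        unfold cl
        rw [Finset.one_lt_card]
        exact ⟨i, by simp, j, by simpa using hrij, hij⟩
      unfold cl at h1
      obtain ⟨y, hy, hy2⟩ := Finset.exists_mem_ne h1 q.out
      rw [Finset.mem_filter] at hy
      refine ⟨y, ?_, hy2⟩
      rw [← Quotient.out_eq q]
      exact Quotient.sound (r.symm' hy.2)
    choose s' hs' hne using hex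
    refine ⟨Fintype.card (Quotient r), fin_le (caseB hr (fun q => q.out) s'
      (fun q => Quotient.out_eq q) hs' (fun q => (hne q).symm)) ?_⟩
    calc n = Fintype.card (Quotient r) * cl r univ c := hn
      _ ≤ Fintype.card (Quotient r) * Fintype.card (Quotient r) := Nat.mul_le_mul_left _ h

end Pool.Agent.W67.EVIMP
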