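import Pool.Agent.W510.CG.Stm

/-!
# All cherries (task CG-IV)
-/

set_option autoImplicit false

namespace Pool.Agent.W67.CGIV

open Pool.Agent.W510.CG

/-- infinite stars -/
theorem star {M V B : Type} (br : V → M → B) (γ : V) (hinf : ∀ S : Finset B, ∃ x : M, br γ x ∉ S)
    (S : Set M) (hS : S.Finite) (hinj : Set.InjOn (br γ) S) (F : Set B) (hF : F.Finite) :
    ∃ T : Set M, S ⊆ T ∧ T.Infinite ∧ Set.InjOn (br γ) T ∧ ∀ x ∈ T, x ∈ S ∨ br γ x ∉ F := by
  classical
  have hR : (Set.range (br γ)).Infinite := by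
    intro hfin
    obtain ⟨x, hx⟩ := hinf hfin.toFinset
    exact hx (hfin.mem_toFinset.mpr ⟨x, rfl⟩)
  have hL : (Set.range (br γ) \ (br γ '' S ∪ F)).Infinite :=
    hR.diff ((hS.image _).union hF)
  have hex : ∀ b : B, b ∈ Set.range (br γ) \ (br γ '' S ∪ F) → ∃ x : M, br γ x = b :=
    fun b hb => hb.1
  haveI : Nonempty M := ⟨(hinf ∅).choose⟩
  choose! s hs using hex
  refine ⟨S ∪ s '' (Set.range (br γ) \ (br γ '' S ∪ F)), Set.subset_union_left, ?_, ?_, ?_⟩
  · refine Set.Infinite.mono Set.subset_union_right (hL.image ?_)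
    intro a ha b hb hab
    rw [← hs a ha, ← hs b hb, hab]
  · rintro x (hx | ⟨b, hb, rfl⟩) y (hy | ⟨c, hc, rfl⟩) hxy
    · exact hinj hx hy hxy
    · exfalso
      rw [hs c hc] at hxy
      exact hc.2 (Or.inl ⟨x, hx, hxy⟩)
    · exfalso
      rw [hs b hb] at hxy
      exact hb.2 (Or.inl ⟨y, hy, hxy.symm⟩)
    · rw [hs b hb, hs c hc] at hxy
      rw [hxy]
  · rintro x (hx | ⟨b, hb, rfl⟩)
    · exact Or.inl hx
    · right
      rw [hs b hb]
      exact fun h => hb.2 (Or.inr h)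

theorem main (hEX : S_EXCH) : S_IV := by
  classical
  intro M V B br G H hT hGH h4 u p v q hcov C a3 a4 hC hCp hCi h3q h4q h34
  obtain ⟨a1, ha1⟩ := hT.inf u {p}
  obtain ⟨a2, ha2⟩ := hT.inf u {p, br u a1}
  simp only [Finset.mem_singleton] at ha1
  simp only [Finset.mem_insert, Finset.mem_singleton, not_or] at ha2
  obtain ⟨ha2p, ha21⟩ := ha2
  have hv1 : br v a1 = q := (hcov a1).resolve_left ha1
  have hv2 : br v a2 = q := (hcov a2).resolve_left ha2p
  have hu3 : br u a3 = p := (hcov a3).resolve_right h3q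
  have hu4 : br u a4 = p := (hcov a4).resolve_right h4q
  have hd : Dist4 a1 a2 a3 a4 := by
    refine ⟨?_, ?_, ?_, ?_, ?_, ?_⟩
    · rintro rfl; exact ha21 rfl
    · rintro rfl; exact ha1 hu3
    · rintro rfl; exact ha1 hu4
    · rintro rfl; exact ha2p hu3
    · rintro rfl; exact ha2p hu4
    · rintro rfl; exact h34 rfl
  obtain ⟨h, hh, γ, hinj⟩ := h4 a1 a2 a3 a4 hd
  obtain ⟨T, hST, hTinf, hTinj, -⟩ := star br γ (hT.inf γ) (h '' {a1, a2, a3, a4})
    (Set.Finite.image _ (by simp)) (by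
      rintro _ ⟨x, hx, rfl⟩ _ ⟨y, hy, rfl⟩ hxy
      rw [hinj hx hy hxy]) ∅ Set.finite_empty
  have hmem : ∀ x ∈ ({a1, a2, a3, a4} : Set M), h x ∈ T := fun x hx => hST ⟨x, hx, rfl⟩
  have hA0inf : (h ⁻¹' T).Infinite := hTinf.preimage (by rw [h.range_eq_univ]; exact Set.subset_univ _)
  have hZ0 : ∀ E : Set M, E ⊆ h ⁻¹' T → Z br H E := by
    intro E hE
    refine ⟨h, hh, γ, ?_⟩
    intro x hx y hy hxy
    exact h.injective (hTinj (hE hx) (hE hy) hxy)
  have h1T : a1 ∈ h ⁻¹' T := hmem a1 (by simp)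
  have h2T : a2 ∈ h ⁻¹' T := hmem a2 (by simp)
  have h3T : a3 ∈ h ⁻¹' T := hmem a3 (by simp)
  have h4T : a4 ∈ h ⁻¹' T := hmem a4 (by simp)
  have hsplit : h ⁻¹' T ⊆ {x ∈ h ⁻¹' T | br u x = p} ∪ {x ∈ h ⁻¹' T | br v x = q} := by
    intro x hx
    rcases hcov x with hx1 | hx1
    · exact Or.inl ⟨hx, hx1⟩
    · exact Or.inr ⟨hx, hx1⟩
  have hone := Set.infinite_union.mp (hA0inf.mono hsplit)
  have hfin : (insert a3 (insert a4 C)).Finite := (hC.insert a4).insert a3
  rcases hone with hA | hA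
  · refine hEX M V B br G H hT hGH u p {x ∈ h ⁻¹' T | br u x = p} a1 a2 hA (fun x hx => hx.2)
      ha1 ha2p (fun e => ha21 e.symm) ?_ C hCp hCi _ hfin ?_
    · intro E _ hE
      refine hZ0 E fun x hx => ?_
      rcases hE hx with rfl | rfl | hx'
      · exact h1T
      · exact h2T
      · exact hx'.1
    · rintro x (rfl | rfl | hx)
      · exact Or.inr ⟨h3T, hu3⟩
      · exact Or.inr ⟨h4T, hu4⟩
      · exact Or.inl hx
  · obtain ⟨C', hC'sub, hC'inf, hC'inj, hC'q⟩ := star br v (hT.inf v) {a3, a4} (by simp) (by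
      rintro x (rfl | rfl) y (rfl | rfl) hxy
      · rfl
      · exact (h34 hxy).elim
      · exact (h34 hxy.symm).elim
      · rfl) {q} (Set.finite_singleton q)
    have hC'ne : ∀ x ∈ C', br v x ≠ q := by
      intro x hx
      rcases hC'q x hx with (rfl | rfl) | h5
      · exact h3q
      · exact h4q
      · exact h5
    have hstep := hEX M V B br G H hT hGH v q {x ∈ h ⁻¹' T | br v x = q} a3 a4 hA (fun x hx => hx.2)
      h3q h4q h34 (by
        intro E _ hE
        refine hZ0 E fun x hx => ?_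
        rcases hE hx with rfl | rfl | hx'
        · exact h3T
        · exact h4T
        · exact hx'.1) C' hC'ne hC'inj
    refine hEX M V B br G H hT hGH u p C' a1 a2 hC'inf (fun x hx => (hcov x).resolve_right (hC'ne x hx))
      ha1 ha2p (fun e => ha21 e.symm) ?_ C hCp hCi _ hfin ?_
    · intro E hE hEsub
      refine hstep E hE fun x hx => ?_
      rcases hEsub hx with rfl | rfl | hx'
      · exact Or.inr ⟨h1T, hv1⟩
      · exact Or.inr ⟨h2T, hv2⟩
      · exact Or.inl hx'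
    · rintro x (rfl | rfl | hx)
      · exact Or.inr (hC'sub (by simp))
      · exact Or.inr (hC'sub (by simp))
      · exact Or.inl hx

end Pool.Agent.W67.CGIV
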