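import Pool.Agent.W217.BE.Stm2

/-!
# Regrading by lines
-/

set_option autoImplicit false

namespace Pool.Agent.W67.BEREGR1

open Pool.Agent.W217.BE

theorem main : REGR1 := by
  intro A _ k M _ _ ℳ h
  rw [DirectSum.isInternal_submodule_iff_iSupIndep_and_iSup_eq_top] at h ⊢
  obtain ⟨hind, htop⟩ := h
  constructor
  · rw [iSupIndep_def]
    intro b
    have hd := hind.disjoint_biSup_biSup (s := {a : Fin (k + 1) → ℤ | Fin.tail a = b})
      (t := {a : Fin (k + 1) → ℤ | Fin.tail a ≠ b}) (by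
        rw [Set.disjoint_left]
        intro a ha ha'
        exact ha' ha)
    refine hd.mono ?_ ?_
    · refine iSup_le fun t => ?_
      exact le_biSup (f := ℳ) (i := (Fin.cons t b : Fin (k + 1) → ℤ))
        (show (Fin.cons t b : Fin (k + 1) → ℤ) ∈ {a : Fin (k + 1) → ℤ | Fin.tail a = b} from by
          change Fin.tail (Fin.cons t b : Fin (k + 1) → ℤ) = b
          rw [Fin.tail_cons])
    · refine iSup_le fun b' => iSup_le fun hb' => iSup_le fun t => ?_
      exact le_biSup (f := ℳ) (i := (Fin.cons t b' : Fin (k + 1) → ℤ))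
        (show (Fin.cons t b' : Fin (k + 1) → ℤ) ∈ {a : Fin (k + 1) → ℤ | Fin.tail a ≠ b} from by
          change Fin.tail (Fin.cons t b' : Fin (k + 1) → ℤ) ≠ b
          rw [Fin.tail_cons]
          exact hb')
  · rw [eq_top_iff, ← htop]
    refine iSup_le fun a => ?_
    have e : a = (Fin.cons (a 0) (Fin.tail a) : Fin (k + 1) → ℤ) := (Fin.cons_self_tail a).symm
    calc ℳ a = ℳ (Fin.cons (a 0) (Fin.tail a)) := by rw [← e]
      _ ≤ ⨆ t : ℤ, ℳ (Fin.cons t (Fin.tail a)) := le_iSup (fun t : ℤ => ℳ (Fin.cons t (Fin.tail a))) (a 0)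
      _ ≤ _ := le_iSup (fun b : Fin k → ℤ => ⨆ t : ℤ, ℳ (Fin.cons t b)) (Fin.tail a)

end Pool.Agent.W67.BEREGR1
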